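import Mathlib
import Pool.Agent.U773.BD.Gcd

/-!
# The blocks of digits of an irrational algebraic number are arithmetically generic

Let `x` be a real irrational algebraic number and `b ≥ 2`.  We consider the blocks of `m` digits of
`x` in base `b` after a place `n ≤ C m`, and the integers written by them.  They share no long words
with the expansions of numbers `(∑ θ_l v_l) / D` built from few integers `v_l` with small `S`-free
parts, and they satisfy no arithmetic relations with small coefficients; the bounds have the exponents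
expected for random digits.
-/

set_option autoImplicit false

namespace Pool.Agent.Results.MP_f2f914_nt.BlocksOfDigits

/-- `W b y n m`: the number written in base `b` by the `m` digits of `y` after the place `n`, that is
by the digits `⌊b ^ k y⌋ mod b`, `n < k ≤ n + m` -/
noncomputable def W (b : ℕ) (y : ℝ) (n m : ℕ) : ℤ := ⌊(b : ℝ) ^ (n + m) * y⌋ % (b : ℤ) ^ m

/-- the `S`-free part of the integer `v ≠ 0`: the largest divisor of `|v|` not divisible by a prime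
of `S`; the `S`-free part of `0` is put to be `1` -/
def free (S : Finset ℕ) (v : ℤ) : ℕ :=
  if v = 0 then 1 else v.natAbs / ∏ p ∈ S, p ^ padicValNat p v.natAbs

/-- `IsSUnit S B D`: the integer `D` is positive, at most `B`, and all its prime factors lie in `S` -/
def IsSUnit (S : Finset ℕ) (B : ℝ) (D : ℕ) : Prop :=
  0 < D ∧ (D : ℝ) ≤ B ∧ ∀ p : ℕ, p.Prime → p ∣ D → p ∈ S

/-- (A) Let `θ_1, …, θ_r` be real algebraic numbers, `ℓ : ℝ → ℚ` a `ℚ`-linear map with `ℓ 1 = 0`, `S`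
a finite set of primes, `C` real and `ε > 0`.  For all large `N`, all numbers `z = (∑ θ_l X_l) / D`
with integers `|X_l| ≤ e ^ (C N)` and a positive integer `D ≤ e ^ (C N)` composed of primes of `S`,
and all integers `M`,
`min (1, |ℓ z|) e ^ (-ε N) ≤ |z - M| ∏ free S X_l`.

(B) Let `x` be a real irrational algebraic number, `b ≥ 2`, `S` a finite set of primes, containing
the prime factors of `b`, `C` real, `δ > 0`.  Each of the following holds for all large `m`.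
(1) Let `θ_1, …, θ_r` be real algebraic numbers such that `x` is not in the `ℚ`-span of
`1, θ_1, …, θ_r`.  If the block of `m` digits of `x` after a place `n ≤ C m` is equal to the block of
`m` digits of `y = (∑ θ_l v_l) / D` after a place `n' ≤ C m`, where the `v_l` are integers,
`|v_l| ≤ e ^ (C m)`, and `D ≤ e ^ (C m)` is composed of primes of `S`, then
`∏ free S v_l ≥ b ^ ((1 - δ) m)`.
(2) If the block of `m` digits of `x` after a place `n ≤ C m` is equal to the block of `m` digits of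
`x w / D` after a place `n' ≤ C m`, where `w, D ≤ e ^ (C m)` are composed of primes of `S`, then
`D b ^ n = w b ^ n'`.
(3) If the expansion in base `b` of the integer `0 ≤ Z ≤ e ^ (C m)` contains the block of `m` digits
of `x` after a place `n ≤ C m`, then the `S`-free part of `Z` is at least `b ^ ((1 - δ) m)`, and
(for given `c ≥ 2` and `R`, and large `m`) `Z` has more than `R` nonzero digits in base `c`.
(4) Let `θ_1, …, θ_r` be as in (1) and `k` given, and let `W_j` be the numbers written by the blocks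
of `m` digits of `x` after places `n_j ≤ C m`, `j ≤ k`.  For all integers `a_j, v_l, M` with
`|a_j|, |v_l| ≤ e ^ (C m)` and `∑ a_j b ^ n_j ≠ 0`,
`b ^ ((1 - δ) m) ≤ (∑ |a_j| + |∑ a_j W_j - ∑ θ_l v_l - b ^ m M|) ∏ free S a_j ∏ free S v_l`.
(5) Let `k ≥ 2` be given.  If the distances of the places `n_j ≤ C m`, `j ≤ k`, are at least
`m / (k + 1)`, then each common divisor of `W_1, …, W_k` is smaller than
`b ^ ((2 / (k + 1) + δ) m)`. -/
theorem result :
    (∀ (S : Finset ℕ), (∀ p ∈ S, p.Prime) → ∀ (r : ℕ) (θ : Fin r → ℝ),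
      (∀ l, IsAlgebraic ℚ (θ l)) → ∀ ℓ : ℝ →ₗ[ℚ] ℚ, ℓ 1 = 0 → ∀ C ε : ℝ, 0 < ε →
      ∃ U : ℕ, ∀ N : ℕ, U ≤ N → ∀ (X : Fin r → ℤ) (D : ℕ) (M : ℤ) (z : ℝ),
        (∀ l, |(X l : ℝ)| ≤ Real.exp (C * N)) → IsSUnit S (Real.exp (C * N)) D →
        z = (∑ l, θ l * X l) / D →
        min 1 |((ℓ z : ℚ) : ℝ)| * Real.exp (-(ε * N)) ≤ |z - M| * ∏ l, (free S (X l) : ℝ)) ∧
    (∀ x : ℝ, IsAlgebraic ℚ x → Irrational x → ∀ b : ℕ, 2 ≤ b → ∀ S : Finset ℕ,
      (∀ p ∈ S, p.Prime) → (∀ p : ℕ, p.Prime → p ∣ b → p ∈ S) → ∀ C δ : ℝ, 0 < δ →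
      (∀ (r : ℕ) (θ : Fin r → ℝ), (∀ l, IsAlgebraic ℚ (θ l)) →
        x ∉ Submodule.span ℚ (insert 1 (Set.range θ)) →
        ∃ U : ℕ, ∀ m : ℕ, U ≤ m → ∀ (n n' D : ℕ) (v : Fin r → ℤ),
          (n : ℝ) ≤ C * m → (n' : ℝ) ≤ C * m → IsSUnit S (Real.exp (C * m)) D →
          (∀ l, |(v l : ℝ)| ≤ Real.exp (C * m)) →
          W b x n m = W b ((∑ l, θ l * v l) / D) n' m →
          (b : ℝ) ^ ((1 - δ) * (m : ℝ)) ≤ ∏ l, (free S (v l) : ℝ)) ∧
      (∃ U : ℕ, ∀ m : ℕ, U ≤ m → ∀ n n' w D : ℕ,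
          (n : ℝ) ≤ C * m → (n' : ℝ) ≤ C * m → IsSUnit S (Real.exp (C * m)) w →
          IsSUnit S (Real.exp (C * m)) D →
          W b x n m = W b (x * w / D) n' m → D * b ^ n = w * b ^ n') ∧
      (∃ U : ℕ, ∀ m : ℕ, U ≤ m → ∀ n h Z : ℕ, (n : ℝ) ≤ C * m → (Z : ℝ) ≤ Real.exp (C * m) →
          ((Z / b ^ h % b ^ m : ℕ) : ℤ) = W b x n m →
          (b : ℝ) ^ ((1 - δ) * (m : ℝ)) ≤ free S Z) ∧
      (∀ c R : ℕ, 2 ≤ c → ∃ U : ℕ, ∀ m : ℕ, U ≤ m → ∀ n h Z : ℕ,
          (n : ℝ) ≤ C * m → (Z : ℝ) ≤ Real.exp (C * m) →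
          ((Z / b ^ h % b ^ m : ℕ) : ℤ) = W b x n m →
          R < {j : ℕ | Z / c ^ j % c ≠ 0}.ncard) ∧
      (∀ (k r : ℕ) (θ : Fin r → ℝ), (∀ l, IsAlgebraic ℚ (θ l)) →
        x ∉ Submodule.span ℚ (insert 1 (Set.range θ)) →
        ∃ U : ℕ, ∀ m : ℕ, U ≤ m → ∀ (n : Fin k → ℕ) (a : Fin k → ℤ) (v : Fin r → ℤ) (M : ℤ),
          (∀ j, (n j : ℝ) ≤ C * m) → (∀ j, |(a j : ℝ)| ≤ Real.exp (C * m)) →
          (∀ l, |(v l : ℝ)| ≤ Real.exp (C * m)) → ∑ j, a j * (b : ℤ) ^ n j ≠ 0 →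
          (b : ℝ) ^ ((1 - δ) * (m : ℝ)) ≤
            (∑ j, |(a j : ℝ)| + |∑ j, (a j : ℝ) * W b x (n j) m - ∑ l, θ l * v l -
              (b : ℝ) ^ m * M|) * ((∏ j, (free S (a j) : ℝ)) * ∏ l, (free S (v l) : ℝ))) ∧
      (∀ k : ℕ, 2 ≤ k → ∃ U : ℕ, ∀ m : ℕ, U ≤ m → ∀ n : Fin k → ℕ,
          (∀ j, (n j : ℝ) ≤ C * m) →
          (∀ i j, i ≠ j → (m : ℝ) / (k + 1) ≤ |(n i : ℝ) - n j|) →
          ∀ g : ℕ, (∀ j, (g : ℤ) ∣ W b x (n j) m) →
            (g : ℝ) < (b : ℝ) ^ ((2 / ((k : ℝ) + 1) + δ) * (m : ℝ)))) := by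
  refine ⟨?_, ?_⟩
  · intro S hS r θ hθ ℓ hℓ C ε hε
    obtain ⟨U, hU⟩ := Pool.Agent.U773.BD.main θ hθ ℓ hℓ hS C ε hε
    refine ⟨U, fun N hN X D M z hX hD hz => ?_⟩
    have h1 := hU N hN D X M hD.1 hD.2.2 hD.2.1 hX
    have hDR : (0 : ℝ) < D := by exact_mod_cast hD.1
    have hDQ : (D : ℚ) ≠ 0 := by exact_mod_cast hD.1.ne'
    have h2 : ∑ l, θ l * (X l : ℝ) = D * z := by
      rw [hz, mul_div_cancel₀ _ hDR.ne']
    have h3 : ((ℓ (D * z) : ℚ) : ℝ) = D * ((ℓ z : ℚ) : ℝ) := by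
      have := Pool.Agent.U773.BD.fun_int ℓ (D : ℤ) z
      rw [Int.cast_natCast, Int.cast_natCast] at this
      rw [this]
      push_cast
      rfl
    rw [h2, h3, abs_mul, abs_of_pos hDR, ← mul_sub, abs_mul, abs_of_pos hDR] at h1
    have h4 : min (D : ℝ) (D * |((ℓ z : ℚ) : ℝ)|) = D * min 1 |((ℓ z : ℚ) : ℝ)| := by
      rw [mul_min_of_nonneg _ _ hDR.le, mul_one]
    rw [h4, mul_assoc, mul_assoc] at h1
    exact le_of_mul_le_mul_left h1 hDR
  · intro x hx hirr b hb S hS hbS C δ hδ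
    have hSb : Pool.Agent.U773.BD.Sb S b = S := by
      unfold Pool.Agent.U773.BD.Sb
      rw [Finset.union_eq_left]
      intro p hp
      exact hbS p (Nat.prime_of_mem_primeFactors hp) (Nat.dvd_of_mem_primeFactors hp)
    refine ⟨?_, ?_, ?_, ?_, ?_, ?_⟩
    · intro r θ hθ hind
      obtain ⟨U, hU⟩ := Pool.Agent.U773.BD.words x hx θ hθ hind hS hb C δ hδ
      refine ⟨U, fun m hm n n' D v hn hn' hD hv hW => ?_⟩
      exact hU m hm n n' D v hn hn' hD.1 (by rw [hSb]; exact hD.2.2) hD.2.1 hv hW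
    · obtain ⟨U, hU⟩ := Pool.Agent.U773.BD.words_unit x hx hirr hS hb C
      refine ⟨U, fun m hm n n' w D hn hn' hw hD hW => ?_⟩
      exact hU m hm n n' D w hn hn' hD.1 hw.1 (by rw [hSb]; exact hD.2.2)
        (by rw [hSb]; exact hw.2.2) hD.2.1 hw.2.1 hW
    · obtain ⟨U, hU⟩ := Pool.Agent.U773.BD.integers' (r := 1) x hx hirr hS hb C δ hδ
      refine ⟨U, fun m hm n h Z hn hZ hW => ?_⟩
      have h1 := (hU m hm n h Z (fun _ => (Z : ℤ)) hn hZ (by simp) (fun _ => by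
        rw [Int.cast_natCast, abs_of_nonneg (Nat.cast_nonneg _)]; exact hZ) hW).2
      simp only [Finset.univ_unique, Finset.prod_singleton] at h1
      exact h1
    · intro c R hc
      exact Pool.Agent.U773.BD.integers_digits x hx hirr hb C hc R
    · intro k r θ hθ hind
      obtain ⟨ℓ, h1, h2⟩ := Pool.Agent.U773.BD.exists_fun _ hind
      have h3 : ℓ 1 = 0 := h2 _ (Submodule.subset_span (Set.mem_insert _ _))
      have h4 : ∀ l, ℓ (θ l) = 0 := fun l => h2 _ (Submodule.subset_span (Or.inr ⟨l, rfl⟩))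
      obtain ⟨U, hU⟩ := Pool.Agent.U773.BD.blocks (k := k) (fun _ => x) (fun _ => hx) θ hθ ℓ h3
        hS hb C δ hδ
      refine ⟨U, fun m hm n a v M hn ha hv hq => ?_⟩
      have key := hU m hm n a v M hn ha hv
      simp only [h1, h4, Rat.cast_zero, zero_mul, Finset.sum_const_zero, sub_zero,
        Rat.cast_one, mul_one] at key
      have hb0 : (0 : ℝ) < b := by positivity
      have hbm : (0 : ℝ) < (b : ℝ) ^ m := by positivity
      have hmin : min ((b : ℝ) ^ m) |(b : ℝ) ^ m * ∑ j, (a j : ℝ) * (b : ℝ) ^ n j| =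
          (b : ℝ) ^ m := by
        apply min_eq_left
        rw [abs_mul, abs_of_pos hbm]
        refine le_mul_of_one_le_right hbm.le ?_
        have h5 : 1 ≤ |∑ j, a j * (b : ℤ) ^ n j| := Int.one_le_abs hq
        have h6 : ((∑ j, a j * (b : ℤ) ^ n j : ℤ) : ℝ) = ∑ j, (a j : ℝ) * (b : ℝ) ^ n j := by
          push_cast
          rfl
        rw [← h6]
        exact_mod_cast h5
      have h7 : (b : ℝ) ^ ((1 - δ) * (m : ℝ)) = (b : ℝ) ^ m * (b : ℝ) ^ (-(δ * (m : ℝ))) := by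
        rw [← Real.rpow_natCast, ← Real.rpow_add hb0]
        congr 1
        ring
      rw [hmin, ← h7] at key
      exact key
    · intro k hk
      exact Pool.Agent.U773.BD.gcd_blocks hk x hx hirr hb C δ hδ

end Pool.Agent.Results.MP_f2f914_nt.BlocksOfDigits
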