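import Mathlib
import Pool.Agent.U746.ST.Alg
import Pool.Agent.U746.ST.Alg2

/-!
# Digit sums of algebraic irrational numbers of degree at least three

No hypothesis is assumed. Let `P` be an integer polynomial of degree `D ≥ 3` with leading coefficient `± a`, let `ξ`
be a real irrational root of `P`, and let `b ≥ 2`. Let `S n` be the sum of the first `n` base-`b` digits of `ξ` after
the point, and `S' n` the sum of the complementary digits `b - 1 - digit`.

It was known that `S n ^ D ≥ (κ - ε) n` for all large `n`, with `κ = (b - 1) g / a`, where `g` divides a power of `b`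
and `a D!` (starting file `DigitSumsDegree`; Bailey, Borwein, Crandall and Pomerance with a smaller constant). For
degree two better constants are known (`ElevenFifths` and `LogarithmicMeans` of MP_0308e6_nt), for `D ≥ 3` they were
not. We prove, for every `ε > 0`:

1. for all large `n` the sums `S n ^ D` and `S' n ^ D` are at least `(11/10 κ - ε) n` if `D` is even, and at least
   `(60/59 κ - ε) n` if `D` is odd;
2. for all `n` in a set of positive lower density `S n ^ D ≥ (κ / Γ(1 + 1/D)^D - ε) n`, and the same for `S'`; the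
   factor `1 / Γ(1 + 1/D)^D` is `1.404…` for `D = 3`, `1.482…` for `D = 4`, and tends to `e^γ = 1.781…`;
3. the same with `g` replaced by `c / W`, if the sum over `j < W` of the representatives in `[1, a D!]` of `b ^ j t`
   modulo `a D!` is at least `c` for all integers `t`;
4. for a root of a cubic with leading coefficient `± 1` the third power of the number of ones among the first `n`
   binary digits is at least `(180/59 - ε) n` for all large `n` (known: `3 - ε`), and at least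
   `(3 / Γ(4/3)^3 - ε) n`, `3 / Γ(4/3)^3 = 4.21…`, for all `n` in a set of positive lower density; the same holds for
   the zeros.

Proof. Let `r(m)` be the sum of `f(i₁) ⋯ f(i_D)` over `i₁ + … + i_D = m`, `f` the digits. The proof of the known bound
is refined to: `r` has mass at least `κ (n - m) - o(n)` in every window `(m, n]`. For 1. the exponential sums
`F(h / N)` of the digits then satisfy `|F(h / N)|^D ≤ S(N)^D - κ N + o(N)` for `h = 1, 2, 3, 4`; for even `D = 2k` the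
`k`-fold convolution of the digits is put into the positive semidefinite kernel of `ElevenFifths`, for odd `D = 2k + 1`
one compares the `k`-fold and the `(k + 1)`-fold convolution by the test function
`16 sin x + 8 cos 2x + cos 4x ≥ 9` on `[0, π]` (this gives an absolute factor, while Moser's argument for `h`-bases
gives `1 + O(3^(-D))`), and for `D = 3` uses `4 cos (x - π/3) + cos 3x ≥ 3` on `[0, 2π/3]`. For 2.: if
`∑_{i ≤ t} f(i) ≤ c t^(1/D)` for all `t` between `δ N` and `N`, then a weighted form of Stöhr's inequality for additive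
bases gives `∑_{m ≤ N} r(m) ≤ c^D Γ(1 + 1/D)^D (1 + D δ + o(1)) N`; so every window `[δ N, N]` contains an `n` with a
large digit sum, and the monotonicity of the digit sums gives a positive proportion.
-/

set_option autoImplicit false

open Finset Polynomial Filter

namespace Pool.Agent.Results.MP_f2f914_nt.DigitSumsHigherDegree

/-- the `k`-th digit of `ξ` after the point in base `b` -/
noncomputable def digit (b : ℕ) (ξ : ℝ) (k : ℕ) : ℤ := ⌊ξ * (b : ℝ) ^ k⌋ % (b : ℤ)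

/-- the sum of the first `n` digits -/
noncomputable def S (b : ℕ) (ξ : ℝ) (n : ℕ) : ℤ := ∑ k ∈ Icc 1 n, digit b ξ k

/-- the sum of the first `n` complementary digits -/
noncomputable def S' (b : ℕ) (ξ : ℝ) (n : ℕ) : ℤ := ∑ k ∈ Icc 1 n, (b - 1 - digit b ξ k)

/-- the number of the digits `v` among the first `n` binary digits -/
noncomputable def count (ξ : ℝ) (v : ℤ) (n : ℕ) : ℕ := ((Icc 1 n).filter (fun k => digit 2 ξ k = v)).card

open Classical in
/-- The set of the `n ≥ 1` with the property `Q` has positive lower density. -/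
def Dense (Q : ℕ → Prop) : Prop :=
  ∃ η : ℝ, 0 < η ∧ ∀ᶠ N : ℕ in atTop, η * N ≤ (((Icc 1 N).filter Q).card : ℝ)

theorem Dense.mono {Q R : ℕ → Prop} (h : ∀ n, Q n → R n) (hQ : Dense Q) : Dense R := by
  classical
  obtain ⟨η, hη, h1⟩ := hQ
  refine ⟨η, hη, ?_⟩
  filter_upwards [h1] with N hN
  refine hN.trans (Nat.cast_le.2 (Finset.card_le_card ?_))
  intro n hn
  rw [mem_filter] at hn ⊢
  exact ⟨hn.1, h n hn.2⟩

/-- the factor gained for all large `n`: `11/10` for even, `60/59` for odd degree -/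
noncomputable def factor (D : ℕ) : ℝ := if Even D then 11 / 10 else 60 / 59

/-- the bounds with constant `κ` for the digits of `ξ` in base `b`, `D` being the degree -/
def Good (b : ℕ) (ξ : ℝ) (D : ℕ) (κ : ℝ) : Prop :=
  ∀ ε : ℝ, 0 < ε →
    (∃ n₀ : ℕ, ∀ n : ℕ, n₀ ≤ n →
      (factor D * κ - ε) * n ≤ (S b ξ n : ℝ) ^ D ∧ (factor D * κ - ε) * n ≤ (S' b ξ n : ℝ) ^ D) ∧
    Dense (fun n => (κ / Real.Gamma (1 + 1 / (D : ℝ)) ^ D - ε) * n ≤ (S b ξ n : ℝ) ^ D) ∧
    Dense (fun n => (κ / Real.Gamma (1 + 1 / (D : ℝ)) ^ D - ε) * n ≤ (S' b ξ n : ℝ) ^ D)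

lemma digit_two (ξ : ℝ) (k : ℕ) : digit 2 ξ k = 0 ∨ digit 2 ξ k = 1 := by
  unfold digit
  have h1 := Int.emod_nonneg ⌊ξ * ((2 : ℕ) : ℝ) ^ k⌋ (show ((2 : ℕ) : ℤ) ≠ 0 by norm_num)
  have h2 := Int.emod_lt_of_pos ⌊ξ * ((2 : ℕ) : ℝ) ^ k⌋ (show (0 : ℤ) < ((2 : ℕ) : ℤ) by norm_num)
  push_cast at h1 h2 ⊢
  omega

lemma S_two (ξ : ℝ) (n : ℕ) : S 2 ξ n = count ξ 1 n := by
  unfold S count
  rw [card_filter]
  push_cast
  apply Finset.sum_congr rfl
  intro k _
  rcases digit_two ξ k with h | h <;> rw [h] <;> norm_num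

lemma S'_two (ξ : ℝ) (n : ℕ) : S' 2 ξ n = count ξ 0 n := by
  unfold S' count
  rw [card_filter]
  push_cast
  apply Finset.sum_congr rfl
  intro k _
  rcases digit_two ξ k with h | h <;> rw [h] <;> norm_num

lemma six_window (t : ℤ) (w : ℕ) :
    ((6 * w + 1 : ℕ) : ℤ) ≤ ∑ j ∈ range (2 * w + 1), (((2 : ℤ) ^ j * t - 1) % 6 + 1) := by
  induction w with
  | zero => simp; omega
  | succ w ih =>
    rw [show 2 * (w + 1) + 1 = (2 * w + 1) + 1 + 1 by ring, sum_range_succ, sum_range_succ]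
    have h1 : ∃ u : ℤ, (2 : ℤ) ^ (2 * w + 1) * t = 2 * u := ⟨2 ^ (2 * w) * t, by ring⟩
    obtain ⟨u, hu⟩ := h1
    have h2 : (2 : ℤ) ^ (2 * w + 1 + 1) * t = 4 * u := by
      rw [pow_succ, mul_comm ((2 : ℤ) ^ (2 * w + 1)) 2, mul_assoc, hu]; ring
    rw [hu, h2]
    have h3 : (6 : ℤ) ≤ ((2 * u - 1) % 6 + 1) + ((4 * u - 1) % 6 + 1) := by omega
    push_cast at ih ⊢
    linarith

lemma factor_eq (D : ℕ) : factor D = Pool.Agent.U746.ST.Kc D := rfl

/-- the version with windows -/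
theorem windows (b : ℕ) (hb : 2 ≤ b) (P : ℤ[X]) (hD : 2 ≤ P.natDegree) (ξ : ℝ) (hξ : Irrational ξ)
    (hP : aeval ξ P = 0) (W c : ℕ) (hW : 1 ≤ W) (hc : ∀ t : ℤ, (c : ℤ) ≤ ∑ j ∈ range W,
      (((b : ℤ) ^ j * t - 1) % (|P.leadingCoeff| * (P.natDegree.factorial : ℤ)) + 1)) :
    Good b ξ P.natDegree (((b : ℝ) - 1) * c / (W * |(P.leadingCoeff : ℝ)|)) := by
  classical
  intro ε hε
  obtain ⟨n0, h0⟩ := Pool.Agent.U746.ST.alg2_both hb P hD hξ hP W c hW hc ε hε
  obtain ⟨η, hη, h⟩ := Pool.Agent.U746.ST.alg_both hb P hD hξ hP W c hW hc ε hε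
  refine ⟨⟨n0, fun n hn => ?_⟩, ⟨η, hη, ?_⟩, ⟨η, hη, ?_⟩⟩
  · rw [factor_eq]
    exact h0 n hn
  · filter_upwards [h] with N hN
    refine hN.1.trans (le_of_eq ?_)
    congr 2
  · filter_upwards [h] with N hN
    refine hN.2.trans (le_of_eq ?_)
    congr 2

/-- the version with a divisor -/
theorem divisor (b : ℕ) (hb : 2 ≤ b) (P : ℤ[X]) (hD : 2 ≤ P.natDegree) (ξ : ℝ) (hξ : Irrational ξ)
    (hP : aeval ξ P = 0) (g v : ℕ) (hg1 : g ∣ b ^ v)
    (hg2 : (g : ℤ) ∣ P.leadingCoeff * (P.natDegree.factorial : ℤ)) :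
    Good b ξ P.natDegree (((b : ℝ) - 1) * g / |(P.leadingCoeff : ℝ)|) := by
  classical
  intro ε hε
  obtain ⟨n0, h0⟩ := Pool.Agent.U746.ST.alg2_gcd hb P hD hξ hP g v hg1 hg2 ε hε
  obtain ⟨η, hη, h⟩ := Pool.Agent.U746.ST.alg_gcd hb P hD hξ hP g v hg1 hg2 ε hε
  refine ⟨⟨n0, fun n hn => ?_⟩, ⟨η, hη, ?_⟩, ⟨η, hη, ?_⟩⟩
  · rw [factor_eq]
    exact h0 n hn
  · filter_upwards [h] with N hN
    refine hN.1.trans (le_of_eq ?_)
    congr 2
  · filter_upwards [h] with N hN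
    refine hN.2.trans (le_of_eq ?_)
    congr 2

/-- **Digit sums of algebraic irrational numbers of degree at least three.** -/
theorem result :
    (∀ b : ℕ, 2 ≤ b → ∀ P : ℤ[X], 3 ≤ P.natDegree → ∀ ξ : ℝ, Irrational ξ → aeval ξ P = 0 →
      ∀ g v : ℕ, g ∣ b ^ v → (g : ℤ) ∣ P.leadingCoeff * (P.natDegree.factorial : ℤ) →
      Good b ξ P.natDegree (((b : ℝ) - 1) * g / |(P.leadingCoeff : ℝ)|)) ∧
    (∀ b : ℕ, 2 ≤ b → ∀ P : ℤ[X], 3 ≤ P.natDegree → ∀ ξ : ℝ, Irrational ξ → aeval ξ P = 0 →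
      ∀ W c : ℕ, 1 ≤ W → (∀ t : ℤ, (c : ℤ) ≤ ∑ j ∈ range W,
        (((b : ℤ) ^ j * t - 1) % (|P.leadingCoeff| * (P.natDegree.factorial : ℤ)) + 1)) →
      Good b ξ P.natDegree (((b : ℝ) - 1) * c / (W * |(P.leadingCoeff : ℝ)|))) ∧
    (∀ P : ℤ[X], P.natDegree = 3 → |P.leadingCoeff| = 1 → ∀ ξ : ℝ, Irrational ξ →
      aeval ξ P = 0 → ∀ ε : ℝ, 0 < ε →
      (∃ n₀ : ℕ, ∀ n : ℕ, n₀ ≤ n →
        (180 / 59 - ε) * n ≤ (count ξ 1 n : ℝ) ^ 3 ∧ (180 / 59 - ε) * n ≤ (count ξ 0 n : ℝ) ^ 3) ∧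
      Dense (fun n => (3 / Real.Gamma (4 / 3) ^ 3 - ε) * n ≤ (count ξ 1 n : ℝ) ^ 3) ∧
      Dense (fun n => (3 / Real.Gamma (4 / 3) ^ 3 - ε) * n ≤ (count ξ 0 n : ℝ) ^ 3)) := by
  refine ⟨fun b hb P hD => divisor b hb P (by omega), fun b hb P hD => windows b hb P (by omega), ?_⟩
  intro P hD hl ξ hξ hP ε hε
  obtain ⟨G, hG⟩ : ∃ G : ℝ, G = Real.Gamma (4 / 3) ^ 3 := ⟨_, rfl⟩
  have hG0 : 0 < G := by rw [hG]; exact pow_pos (Real.Gamma_pos_of_pos (by norm_num)) _
  rw [← hG]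
  obtain ⟨w, hw⟩ := exists_nat_ge (2 / (ε * G) + 4 / ε)
  have hε2 : 0 ≤ 2 / (ε * G) := by positivity
  have hε4 : 0 ≤ 4 / ε := by positivity
  have hl' : |(P.leadingCoeff : ℝ)| = 1 := by
    have h1 : |(P.leadingCoeff : ℝ)| = ((|P.leadingCoeff| : ℤ) : ℝ) := by push_cast; rfl
    rw [h1, hl]
    norm_num
  have h := windows 2 le_rfl P (by omega) ξ hξ hP (2 * w + 1) (6 * w + 1) (by omega) (by
      intro t
      rw [hl, hD]
      have := six_window t w
      simpa [Nat.factorial] using this) (ε / 2) (by positivity)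
  rw [hD, hl'] at h
  have e1 : (1 : ℝ) + 1 / ((3 : ℕ) : ℝ) = 4 / 3 := by norm_num
  have e2 : factor 3 = 60 / 59 := by
    unfold factor
    rw [if_neg (by decide)]
  rw [e1, ← hG, e2] at h
  have hw0 : (0 : ℝ) ≤ w := Nat.cast_nonneg w
  have hcmp : 3 / G - ε ≤ (((2 : ℕ) : ℝ) - 1) * ((6 * w + 1 : ℕ) : ℝ) / (((2 * w + 1 : ℕ) : ℝ) * 1) / G - ε / 2 := by
    have hw1 : 2 / (ε * G) ≤ w := by linarith
    rw [div_le_iff₀ (by positivity)] at hw1
    have h2 : 3 / G - (((2 : ℕ) : ℝ) - 1) * ((6 * w + 1 : ℕ) : ℝ) / (((2 * w + 1 : ℕ) : ℝ) * 1) / G =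
        2 / ((2 * w + 1) * G) := by
      push_cast
      field_simp
      ring
    have h3 : 2 / ((2 * w + 1) * G) ≤ ε / 2 := by
      rw [div_le_iff₀ (by positivity)]
      nlinarith
    linarith
  have hcmp2 : 180 / 59 - ε ≤ 60 / 59 * ((((2 : ℕ) : ℝ) - 1) * ((6 * w + 1 : ℕ) : ℝ) / (((2 * w + 1 : ℕ) : ℝ) * 1)) - ε / 2 := by
    have hw1 : 4 / ε ≤ w := by linarith
    rw [div_le_iff₀ hε] at hw1
    have h2 : 3 - (((2 : ℕ) : ℝ) - 1) * ((6 * w + 1 : ℕ) : ℝ) / (((2 * w + 1 : ℕ) : ℝ) * 1) = 2 / (2 * w + 1) := by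
      push_cast
      field_simp
      ring
    have h3 : 2 / (2 * (w : ℝ) + 1) ≤ ε / 4 := by
      rw [div_le_iff₀ (by positivity)]
      nlinarith
    linarith
  obtain ⟨⟨n0, h0⟩, h1, h2⟩ := h
  refine ⟨⟨n0, fun n hn => ?_⟩, h1.mono fun n hn => ?_, h2.mono fun n hn => ?_⟩
  · have h3 := h0 n hn
    rw [S_two, S'_two] at h3
    have h4 := mul_le_mul_of_nonneg_right hcmp2 (Nat.cast_nonneg n : (0 : ℝ) ≤ n)
    refine ⟨h4.trans (h3.1.trans (le_of_eq ?_)), h4.trans (h3.2.trans (le_of_eq ?_))⟩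
    · push_cast
      rfl
    · push_cast
      rfl
  · rw [S_two] at hn
    have h4 := mul_le_mul_of_nonneg_right hcmp (Nat.cast_nonneg n : (0 : ℝ) ≤ n)
    refine h4.trans (hn.trans (le_of_eq ?_))
    push_cast
    rfl
  · rw [S'_two] at hn
    have h4 := mul_le_mul_of_nonneg_right hcmp (Nat.cast_nonneg n : (0 : ℝ) ≤ n)
    refine h4.trans (hn.trans (le_of_eq ?_))
    push_cast
    rfl

end Pool.Agent.Results.MP_f2f914_nt.DigitSumsHigherDegree
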