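import Mathlib
import Pool.Agent.U55.PB.Fin
import Pool.Agent.U55.PB.LinDisj

set_option autoImplicit false

/-!
# Algebraic numbers and numbers with predictable digits

A word `D` of integers is cut into simple pieces of order `m` by a set `E` of places, if every
stretch of `D` without a place of `E` satisfies a linear recurrence over `ℚ` of order `m` (the
recurrence depends on the stretch).  For instance a predictor (finite automaton) with `m` states
which reads `D` and announces the next letter cuts `D` in this way at its wrong predictions.

Let `S` be an infinite set of integers.  A real number is called *predictable along `S`* in base `b`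
if its digits differ from a word of linear block complexity by a sequence whose first `M` terms,
for every `M ∈ S`, are cut at `O(log M)` places into simple pieces of order `O(M ^ θ)`, for some
`θ < 1`.

We prove: the field generated by all numbers which are predictable along `S` in some base `b ≥ 2`
(different bases for different numbers) is linearly disjoint from the field of the real algebraic
numbers; in particular it contains no irrational algebraic number.  Explicitly: for an irrational
algebraic number, every predictor with `M ^ θ` states makes more than `A log M` errors among the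
first `M` digits (minus a word of linear complexity), for all large `M`.
-/

namespace Pool.Agent.Results.MP_f2f914_nt.FewSimplePieces

/-- the `k`-th digit after the point of `x` in base `b` (`k = 0` is the first one) -/
noncomputable def digit (b : ℕ) (x : ℝ) (k : ℕ) : ℤ := ⌊(b : ℝ) ^ (k + 1) * x⌋ % b

/-- the number of different blocks of `n` consecutive letters of the word `w` -/
noncomputable def blocks (w : ℕ → ℤ) (n : ℕ) : ℕ :=
  (Set.range fun i : ℕ => fun j : Fin n => w (i + j)).ncard

/-- a word over the alphabet `{0, ..., b - 1}` with at most `C n` different blocks of length `n`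
for every `n ≥ 1` -/
def Simple (b : ℕ) (C : ℝ) (w : ℕ → ℤ) : Prop :=
  (∀ k, 0 ≤ w k ∧ w k < b) ∧ ∀ n : ℕ, 1 ≤ n → (blocks w n : ℝ) ≤ C * n

/-- the terms `D_u, …, D_{v-1}` satisfy a linear recurrence over `ℚ` of order `m` -/
def Recurrent (D : ℕ → ℤ) (m u v : ℕ) : Prop := ∃ c : ℕ → ℚ, ∀ i, u ≤ i → i + m < v →
  (D (i + m) : ℚ) = ∑ l ∈ Finset.range m, c l * (D (i + l) : ℚ)

/-- There is a set `E` of at most `r` places such that every stretch `D_u, …, D_{v-1}` of the first
`M` terms of `D` which contains no place of `E` satisfies a linear recurrence over `ℚ` of order `m`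
(the recurrence may depend on the stretch). -/
def Pieces (D : ℕ → ℤ) (M m r : ℕ) : Prop := ∃ E : Finset ℕ, E.card ≤ r ∧
  ∀ u v, u ≤ v → v ≤ M → (∀ k ∈ E, k < u ∨ v ≤ k) → Recurrent D m u v

/-- A predictor with `K` states. In the state `s` it announces the letter `out s`; then it reads
the true letter `d` and moves to the state `step s d`. -/
structure Predictor (K : ℕ) where
  /-- the announced letter -/
  out : Fin K → ℤ
  /-- the next state -/
  step : Fin K → ℤ → Fin K
  /-- the initial state -/
  start : Fin K

/-- the state before reading the letter with index `k` of the word `D` -/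
def Predictor.state {K : ℕ} (P : Predictor K) (D : ℕ → ℤ) : ℕ → Fin K
  | 0 => P.start
  | k + 1 => P.step (P.state D k) (D k)

/-- the number of wrong predictions of the predictor among the first `M` letters of `D` -/
def Predictor.errors {K : ℕ} (P : Predictor K) (D : ℕ → ℤ) (M : ℕ) : ℕ :=
  ((Finset.range M).filter fun k => P.out (P.state D k) ≠ D k).card

/-- `x` is predictable along `S` in base `b`: there are a word `w` of linear block complexity over
`{0, …, b - 1}`, a constant `C` and `θ < 1` such that for all `M ∈ S` the first `M` differences
between the digits of `x` and the letters of `w` are cut by at most `C (1 + log M)` places into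
pieces which satisfy linear recurrences of order at most `C M ^ θ` -/
def Predictable (S : Set ℕ) (b : ℕ) (x : ℝ) : Prop := ∃ (w : ℕ → ℤ) (C θ : ℝ), θ < 1 ∧
  Simple b C w ∧ ∀ M ∈ S, ∃ m r : ℕ, (m : ℝ) ≤ C * (M : ℝ) ^ θ ∧
    (r : ℝ) ≤ C * (1 + Real.log M) ∧ Pieces (fun k => digit b x k - w k) M m r

/-- the field generated by all real numbers which are predictable along `S` in some base `b ∈ A` -/
noncomputable def predictableField (S A : Set ℕ) : Subfield ℝ :=
  Subfield.closure {x | ∃ b ∈ A, Predictable S b x}

lemma state_eq {K : ℕ} (P : Predictor K) (D : ℕ → ℤ) (k : ℕ) :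
    P.state D k = Pool.Agent.R473.TB.st P.step P.start D k := by
  induction k with
  | zero => rfl
  | succ k ih => rw [Predictor.state, Pool.Agent.R473.TB.st, ih]

lemma errors_eq {K : ℕ} (P : Predictor K) (D : ℕ → ℤ) (M : ℕ) :
    P.errors D M = Pool.Agent.R473.TB.errs P.out P.step P.start D M := by
  unfold Predictor.errors Pool.Agent.R473.TB.errs
  simp only [state_eq]

lemma pieces_errors {K : ℕ} (P : Predictor K) (D : ℕ → ℤ) (M : ℕ) :
    Pieces D M K (P.errors D M) := by
  rw [errors_eq]
  exact Pool.Agent.U55.PB.cut_st P.out P.step P.start D M

lemma pred_eq : Predictable = Pool.Agent.U55.PB.Pred := by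
  funext S b x
  apply propext
  constructor
  · rintro ⟨w, C, θ, h1, ⟨h2, h3⟩, h4⟩
    exact ⟨w, C, θ, h1, h2, h3, h4⟩
  · rintro ⟨w, C, θ, h1, h2, h3, h4⟩
    exact ⟨w, C, θ, h1, ⟨h2, h3⟩, h4⟩

lemma field_eq (S A : Set ℕ) : predictableField S A = Pool.Agent.U55.PB.PF S A := by
  unfold predictableField Pool.Agent.U55.PB.PF
  rw [pred_eq]

/-- **(1)** For every infinite set `S` of integers, real algebraic numbers which are linearly
independent over `ℚ` are linearly independent over the field generated by all real numbers which are
predictable along `S` in some base `b ≥ 2`. In particular no irrational algebraic number is in this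
field.

**(2)** Let `x` be an irrational algebraic number, let `b ≥ 2`, let `w` be a word of at most linear
block complexity over `{0, …, b - 1}` and let `θ < 1` and `A` be real numbers. For every sufficiently
large `M`: if the first `M` differences between the digits of `x` in base `b` and the letters of `w`
are cut by `r` places into pieces which satisfy linear recurrences of order at most `M ^ θ`, then
`r > A log M`; in particular every predictor with at most `M ^ θ` states, which reads these
differences, makes more than `A log M` wrong predictions among the first `M`. -/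
theorem result :
    (∀ S : Set ℕ, S.Infinite → ∀ (n : ℕ) (α : Fin n → ℝ), (∀ i, IsAlgebraic ℚ (α i)) →
      LinearIndependent ℚ α → LinearIndependent (predictableField S {b | 2 ≤ b}) α) ∧
    (∀ x : ℝ, Irrational x → IsAlgebraic ℚ x → ∀ b : ℕ, 2 ≤ b → ∀ (C : ℝ) (w : ℕ → ℤ),
      Simple b C w → ∀ θ : ℝ, θ < 1 → ∀ A : ℝ, ∃ M₀ : ℕ, ∀ M ≥ M₀,
        (∀ m r : ℕ, (m : ℝ) ≤ (M : ℝ) ^ θ → Pieces (fun k => digit b x k - w k) M m r →
          A * Real.log M < r) ∧
        ∀ K : ℕ, (K : ℝ) ≤ (M : ℝ) ^ θ → ∀ P : Predictor K,
          A * Real.log M < P.errors (fun k => digit b x k - w k) M) := by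
  refine ⟨fun S hS n α hα hli => ?_, fun x hx hxa b hb C w hw θ hθ A => ?_⟩
  · rw [field_eq]
    exact Pool.Agent.U55.PB.linDisj _ (fun x hx hirr =>
      Pool.Agent.U55.PB.transc_PF (fun d hd => hd) hS hx hirr) α hα hli
  · obtain ⟨M0, h⟩ := Pool.Agent.U55.PB.alg_main hx hxa hb hw.1 hw.2 hθ A
    exact ⟨M0, fun M hM => ⟨fun m r hm hr => h M hM m r hm hr, fun K hK P =>
      h M hM K _ hK (pieces_errors P _ M)⟩⟩

end Pool.Agent.Results.MP_f2f914_nt.FewSimplePieces
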