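import Pool.Agent.U363.SP.Card

/-!
# Sums of `D` places of digits of a real algebraic number of degree `D`

No hypothesis is assumed.  Let `x` be a real irrational algebraic number of degree `D`, let `b ≥ 2`,
and let `e` be the digit `0` or the digit `b - 1`.  Let `K` be the number of the places `k` in
`[1, n]` with a digit different from `e`, and `l = log (2 + K ^ D / n)`.

1. For every `ε > 0` there are `C` and `n₀` (depending on `x`, `b`, `ε`) such that for all `n ≥ n₀`,
   with at most `ε n` exceptions, every `m` in `[1, n]` lies closely below a sum of exactly `D`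
   places of digits different from `e`: there is such a sum in `[m, m + C l]`.
2. There are `C` and `n₀` (depending on `x` and `b`) such that for all `n ≥ n₀` the number `S` of the
   sums of exactly `D` such places in `[1, n]` satisfies `n ≤ C S l`.

So if the digits different from `e` are as rare as the theorem of Bailey, Borwein, Crandall and
Pomerance permits (`K ≤ A n ^ (1 / D)`), then for every `ε` all but `ε n` of the `m ≤ n` have a sum of
`D` places at a bounded distance; in every case there are at least `c n / log n` sums up to `n`.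
-/

set_option autoImplicit false

open Finset

namespace Pool.Agent.Results.MP_f2f914_nt.SumsOfDPlaces

/-- the `k`-th digit of `x` after the point in base `b` -/
noncomputable def digit (b : ℕ) (x : ℝ) (k : ℕ) : ℤ := ⌊x * (b : ℝ) ^ k⌋ % (b : ℤ)

/-- the number of the places `k` in `[1, n]` for which the `k`-th digit is not `e` -/
noncomputable def others (b : ℕ) (x : ℝ) (e : ℤ) (n : ℕ) : ℕ :=
  ((Icc 1 n).filter (fun k => digit b x k ≠ e)).card

/-- `j` is a sum of exactly `D` places (equal or not) of digits different from `e` -/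
def IsSum (b : ℕ) (x : ℝ) (e : ℤ) (D j : ℕ) : Prop :=
  ∃ f : Fin D → ℕ, (∀ i, 1 ≤ f i ∧ digit b x (f i) ≠ e) ∧ ∑ i, f i = j

open Classical in
/-- the number of the `j` in `[1, n]` which are a sum of exactly `D` places of digits different
from `e` -/
noncomputable def sums (b : ℕ) (x : ℝ) (e : ℤ) (D n : ℕ) : ℕ :=
  ((Icc 1 n).filter (IsSum b x e D)).card

open Classical in
/-- the number of the `m` in `[1, n]` for which no integer in the interval `[m, m + R]` is a sum of
exactly `D` places of digits different from `e` -/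
noncomputable def far (b : ℕ) (x : ℝ) (e : ℤ) (D n : ℕ) (R : ℝ) : ℕ :=
  ((Icc 1 n).filter (fun m => ¬ ∃ j : ℕ, m ≤ j ∧ (j : ℝ) ≤ m + R ∧ IsSum b x e D j)).card

/-- The result. -/
theorem result (x : ℝ) (halg : IsAlgebraic ℚ x) (hirr : Irrational x) (b : ℕ) (hb : 2 ≤ b) (D : ℕ)
    (hD : (minpoly ℚ x).natDegree = D) :
    (∀ ε : ℝ, 0 < ε → ∃ C : ℝ, 0 < C ∧ ∃ n₀ : ℕ, ∀ n : ℕ, n₀ ≤ n →
      ∀ e : ℤ, (e = 0 ∨ e = b - 1) →
        (far b x e D n (C * Real.log (2 + (others b x e n : ℝ) ^ D / n)) : ℝ) ≤ ε * n) ∧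
    (∃ C : ℝ, 0 < C ∧ ∃ n₀ : ℕ, ∀ n : ℕ, n₀ ≤ n → ∀ e : ℤ, (e = 0 ∨ e = b - 1) →
      (n : ℝ) ≤ C * sums b x e D n * Real.log (2 + (others b x e n : ℝ) ^ D / n)) := by
  subst hD
  refine ⟨fun ε hε => ?_, ?_⟩
  · obtain ⟨C, hC, n₀, h⟩ := Pool.Agent.U363.SP.near_alg hb halg hirr (min ε 1)
      (lt_min hε one_pos) (min_le_right _ _)
    refine ⟨C, hC, n₀, fun n hn e he => ?_⟩
    have h1 := h n hn e he
    have h2 : min ε 1 * (n : ℝ) ≤ ε * n :=
      mul_le_mul_of_nonneg_right (min_le_left _ _) (Nat.cast_nonneg _)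
    refine le_trans ?_ h2
    exact h1
  · exact Pool.Agent.U363.SP.card_alg hb halg hirr

end Pool.Agent.Results.MP_f2f914_nt.SumsOfDPlaces
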